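import Mathlib
import Pool.Agent.H852.QP.Hom
import Pool.Agent.W610.NearX

set_option autoImplicit false

/-!
# Near-uniform multiplicities, exponential in a power of the number of points

For every `ε > 0` and all large `n`: if all multiplicities `w i` are `m` or `m + 1`, where
`1 ≤ m ≤ exp (n ^ (1 / 1000) / 2)`, then for points in general position the plane system of degree
`d` has the dimension `max (0, χ)` for every `d` with
`|2 d + 3 - √n - 2 (∑ w i) / √n| ≥ ε`.
-/

namespace Pool.Agent.Results.MP_70e04f_ag.NearUniformExponential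

open MvPolynomial

/-- Forms of degree `d` vanishing to order at least `w i` at the points `(P i 0 : P i 1 : 1)`. -/
noncomputable def forms {n : ℕ} (P : Fin n → Fin 2 → ℂ) (d : ℕ) (w : Fin n → ℕ) :
    Submodule ℂ (MvPolynomial (Fin 3) ℂ) :=
  homogeneousSubmodule (Fin 3) ℂ d ⊓
    Submodule.restrictScalars ℂ
      (⨅ i : Fin n, (Ideal.span {X 0 - C (P i 0) * X 2, X 1 - C (P i 1) * X 2} :
        Ideal (MvPolynomial (Fin 3) ℂ)) ^ (w i))

theorem result (ε : ℝ) (hε : 0 < ε) :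
    ∃ N : ℕ, ∀ n : ℕ, N ≤ n → ∀ m : ℕ, 0 < m → (m : ℝ) ≤ Real.exp ((n : ℝ) ^ (1 / 1000 : ℝ) / 2) →
      ∀ w : Fin n → ℕ, (∀ i, w i = m ∨ w i = m + 1) →
        ∃ F : MvPolynomial (Fin n × Fin 2) ℂ, F ≠ 0 ∧
          ∀ P : Fin n → Fin 2 → ℂ,
            MvPolynomial.eval (fun ij : Fin n × Fin 2 => P ij.1 ij.2) F ≠ 0 →
            ∀ d : ℕ,
              ε ≤ |2 * (d : ℝ) + 3 - Real.sqrt n - 2 * (∑ i, (w i : ℝ)) / Real.sqrt n| →
              (Module.finrank ℂ ↥(forms P d w) : ℤ) =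
                max 0 (((d + 2).choose 2 : ℤ) - ∑ i, ((w i + 1).choose 2 : ℤ)) := by
  obtain ⟨N, -, hN⟩ := Pool.Agent.W610.near_uniformX hε
  refine ⟨N, fun n hn m hm hmX w hw => ?_⟩
  obtain ⟨F, hF, hF'⟩ := hN ℂ n hn m hm hmX w hw
  refine ⟨F.map (algebraMap ℚ ℂ), fun h0 => hF ?_, fun P hP d hd => ?_⟩
  · exact MvPolynomial.map_injective (algebraMap ℚ ℂ) (algebraMap ℚ ℂ).injective
      (h0.trans (map_zero _).symm)
  · rw [MvPolynomial.eval_map] at hP
    have h1 := hF' P hP d hd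
    unfold Pool.Agent.H932R3.ExpDim at h1
    unfold forms
    rw [h1]
    have e : ∑ i, ((w i + 1).choose 2 : ℤ) = ((∑ i, (w i + 1).choose 2 : ℕ) : ℤ) := by
      push_cast
      rfl
    rw [e]
    omega

end Pool.Agent.Results.MP_70e04f_ag.NearUniformExponential
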